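import Pool.Agent.Helper56.TOF.Goals

set_option autoImplicit false

open Set Filter Topology MeasureTheory

open scoped ContDiff

namespace Pool.Agent.Helper30.TOF

open Pool.Agent.Helper56.RZ Pool.Agent.Helper30.CIR Pool.Agent.Helper56.TOF

/-- the core, with `S = univ` -/
theorem ab2_core {α : Type} [MeasurableSpace α] (m : Measure α) [IsFiniteMeasure m]
    (ν : Measure ℝ) [IsProbabilityMeasure ν] (a1 a2 C η : ℝ) (v : ℕ → ℝ → α → ℝ)
    (hI : ∀ᵐ al ∂ν, al ∈ Icc a1 a2) (hm : 0 < m univ) (hη : 0 < η)
    (hmeas : ∀ n, AEStronglyMeasurable (fun w : ℝ × α => v n w.1 w.2) (ν.prod m))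
    (hb : ∀ n, ∀ al ∈ Icc a1 a2, ∀ᵐ x ∂m, |v n al x| ≤ C)
    (hneg : ∀ᵐ x ∂m, ∀ᶠ n in atTop, ∫ al, v n al x ∂ν ≤ -η)
    (hpos : ∀ al ∈ Icc a1 a2, ∀ᵐ x ∂m, ∀ lam < (0 : ℝ), ∀ᶠ n in atTop, lam ≤ v n al x) :
    False := by
  set f : ℕ → ℝ × α → ℝ := fun n => (hmeas n).mk _ with hf
  have hfm : ∀ n, StronglyMeasurable (f n) := fun n => (hmeas n).stronglyMeasurable_mk
  have hfv : ∀ᵐ w ∂(ν.prod m), ∀ n, v n w.1 w.2 = f n w := by
    rw [ae_all_iff]
    exact fun n => (hmeas n).ae_eq_mk
  have h1 : ∀ᵐ al ∂ν, ∀ᵐ x ∂m, ∀ n, v n al x = f n (al, x) := Measure.ae_ae_of_ae_prod hfv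
  have h1' : ∀ᵐ x ∂m, ∀ᵐ al ∂ν, ∀ n, v n al x = f n (al, x) := by
    have := (Measure.measurePreserving_swap (μ := m) (ν := ν)).quasiMeasurePreserving.ae hfv
    exact Measure.ae_ae_of_ae_prod this
  -- the bound
  have hA1 : MeasurableSet {w : ℝ × α | ∀ n, |f n w| ≤ C} := by
    rw [ofPred_forall]
    refine MeasurableSet.iInter fun n => ?_
    exact measurableSet_le ((hfm n).measurable.norm) measurable_const
  have hA2 : MeasurableSet {w : ℝ × α | Tendsto (fun n => min (f n w) 0) atTop (𝓝 0)} :=
    measurableSet_tendsto_fun (fun n => (hfm n).measurable.min measurable_const) measurable_const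
  have hB : ∀ᵐ w ∂(ν.prod m), ∀ n, |f n w| ≤ C := by
    rw [Measure.ae_prod_iff_ae_ae hA1]
    filter_upwards [hI, h1] with al hal h
    filter_upwards [h, ae_all_iff.2 (fun n => hb n al hal)] with x hx hbx n
    rw [← hx n]
    exact hbx n
  have hT : ∀ᵐ w ∂(ν.prod m), Tendsto (fun n => min (f n w) 0) atTop (𝓝 0) := by
    rw [Measure.ae_prod_iff_ae_ae hA2]
    filter_upwards [hI, h1] with al hal h
    filter_upwards [h, hpos al hal] with x hx hpx
    rw [Metric.tendsto_atTop]
    intro ε hε
    obtain ⟨n0, hn0⟩ := eventually_atTop.1 (hpx (-(ε / 2)) (by linarith))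
    refine ⟨n0, fun n hn => ?_⟩
    have := hn0 n hn
    rw [hx n] at this
    rw [Real.dist_eq, sub_zero, abs_lt]
    constructor
    · rcases min_cases (f n (al, x)) 0 with h | h <;> rw [h.1] <;> linarith
    · exact lt_of_le_of_lt (min_le_right _ _) hε
  have hmin : ∀ t : ℝ, |t| ≤ C → |min t 0| ≤ |C| := by
    intro t ht
    have h2 := abs_le.1 ht
    have h3 := le_abs_self C
    rcases min_cases t 0 with h | h <;> rw [h.1]
    · exact le_trans ht h3
    · rw [abs_zero]; exact abs_nonneg _
  have hFm : ∀ n, StronglyMeasurable (fun w => min (f n w) 0) := fun n =>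
    ((hfm n).measurable.min measurable_const).stronglyMeasurable
  have hlim : Tendsto (fun n => ∫ w, min (f n w) 0 ∂(ν.prod m)) atTop (𝓝 0) := by
    have := tendsto_integral_of_dominated_convergence (μ := ν.prod m)
      (F := fun n w => min (f n w) 0) (f := fun _ => (0 : ℝ)) (fun _ => |C|)
      (fun n => (hFm n).aestronglyMeasurable) (integrable_const _)
      (fun n => by
        filter_upwards [hB] with w hw
        exact hmin _ (hw n)) hT
    simpa using this
  have hFint : ∀ n, Integrable (fun w => min (f n w) 0) (ν.prod m) := fun n =>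
    Integrable.of_bound (hFm n).aestronglyMeasurable |C| (by
      filter_upwards [hB] with w hw
      exact hmin _ (hw n))
  have hB' : ∀ᵐ x ∂m, ∀ᵐ al ∂ν, ∀ n, |f n (al, x)| ≤ C := by
    have := (Measure.measurePreserving_swap (μ := m) (ν := ν)).quasiMeasurePreserving.ae hB
    exact Measure.ae_ae_of_ae_prod this
  set ψ : ℕ → α → ℝ := fun n x => ∫ al, min (f n (al, x)) 0 ∂ν with hψ
  have hψm : ∀ n, StronglyMeasurable (ψ n) := fun n => (hFm n).integral_prod_left'
  have hfub : ∀ n, ∫ w, min (f n w) 0 ∂(ν.prod m) = ∫ x, ψ n x ∂m := fun n =>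
    integral_prod_symm _ (hFint n)
  have hψb : ∀ᵐ x ∂m, ∀ n, |ψ n x| ≤ |C| := by
    filter_upwards [hB'] with x hx n
    have := norm_integral_le_of_norm_le_const (μ := ν) (f := fun al => min (f n (al, x)) 0)
      (C := |C|) (by
        filter_upwards [hx] with al hal
        exact hmin _ (hal n))
    simpa using this
  have hψn : ∀ᵐ x ∂m, ∀ᶠ n in atTop, ψ n x ≤ -η := by
    filter_upwards [hneg, h1', hB'] with x hx h hbx
    filter_upwards [hx] with n hn
    have e : ∫ al, v n al x ∂ν = ∫ al, f n (al, x) ∂ν :=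
      integral_congr_ae (by filter_upwards [h] with al hal; exact hal n)
    refine le_trans ?_ (e ▸ hn)
    refine integral_mono_ae ?_ ?_ ?_
    · exact Integrable.of_bound ((hFm n).comp_measurable (by fun_prop)).aestronglyMeasurable |C|
        (by filter_upwards [hbx] with al hal; exact hmin _ (hal n))
    · exact Integrable.of_bound ((hfm n).comp_measurable (by fun_prop)).aestronglyMeasurable C
        (by filter_upwards [hbx] with al hal; exact hal n)
    · exact Eventually.of_forall fun al => min_le_left _ _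
  have hmax : Tendsto (fun n => ∫ x, max (ψ n x) (-η) ∂m) atTop (𝓝 (∫ _, (-η) ∂m)) := by
    refine tendsto_integral_of_dominated_convergence (fun _ => |C| + η)
      (fun n => ((hψm n).measurable.max measurable_const).stronglyMeasurable.aestronglyMeasurable)
      (integrable_const _) (fun n => ?_) ?_
    · filter_upwards [hψb] with x hx
      have h2 := abs_le.1 (hx n)
      have h3 := abs_nonneg C
      rw [Real.norm_eq_abs, abs_le]
      constructor
      · exact le_trans (by linarith) (le_max_right _ _)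
      · exact max_le (by linarith) (by linarith)
    · filter_upwards [hψn] with x hx
      refine tendsto_const_nhds.congr' ?_
      filter_upwards [hx] with n hn
      exact (max_eq_right hn).symm
  have hψi : ∀ n, Integrable (ψ n) m := fun n =>
    Integrable.of_bound (hψm n).aestronglyMeasurable |C| (by
      filter_upwards [hψb] with x hx
      exact hx n)
  have hle : ∀ n, ∫ w, min (f n w) 0 ∂(ν.prod m) ≤ ∫ x, max (ψ n x) (-η) ∂m := by
    intro n
    rw [hfub n]
    refine integral_mono_ae (hψi n) ?_ (Eventually.of_forall fun x => le_max_left _ _)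
    exact (hψi n).sup (integrable_const _)
  have hfin := le_of_tendsto_of_tendsto' hlim hmax hle
  rw [integral_const, smul_eq_mul] at hfin
  have hmr : 0 < m.real univ := by
    rw [Measure.real, ENNReal.toReal_pos_iff]
    exact ⟨hm, measure_lt_top _ _⟩
  nlinarith [mul_pos hmr hη]

/-- packet AB2 -/
theorem gAB2 : StmtAB2 := by
  intro α _ m _ ν _ a1 a2 C η S v hI hS hmS hη hmeas hb hneg
  by_contra hcon
  push Not at hcon
  refine ab2_core (m.restrict S) ν a1 a2 C η v hI ?_ hη ?_ ?_ ?_ ?_
  · rwa [Measure.restrict_apply_univ]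
  · intro n
    have h1 : ν.prod (m.restrict S) = (ν.prod m).restrict (univ ×ˢ S) := by
      rw [← Measure.prod_restrict, Measure.restrict_univ]
    rw [h1]
    exact (hmeas n).mono_measure Measure.restrict_le_self
  · intro n al hal
    exact ae_restrict_of_ae (hb n al hal)
  · rw [ae_restrict_iff' hS]
    exact hneg
  · intro al hal
    have := hcon al hal
    exact ae_restrict_of_ae this

end Pool.Agent.Helper30.TOF
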