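import Pool.Agent.Helper56.TOF.Goals2
import Pool.Agent.Helper77.CIR.CE1

set_option autoImplicit false

open Set Filter Topology MeasureTheory

open scoped ContDiff

namespace Pool.Agent.Helper30.TOF

open Pool.Agent.Helper56.RZ Pool.Agent.Helper30.CIR Pool.Agent.Helper56.TOF

/-- uniform contraction -/
theorem contr_unif {K : ℕ} {M : Set (E K)} (hM : IsCompact M) {A P : E K → End K}
    (hA : ContinuousOn A M) (hP : ContinuousOn P M) (hd : ∀ x ∈ M, Contracts (A x) (P x)) :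
    ∃ θ : ℝ, 0 < θ ∧ θ < 1 ∧ ∀ x ∈ M, ∀ v, P x v = v → ‖A x v‖ ≤ θ * ‖v‖ := by
  set B : Set (E K × E K) := M ×ˢ Metric.sphere (0 : E K) 1 with hB
  have hBc : IsCompact B := hM.prod (isCompact_sphere 0 1)
  have c1 : ContinuousOn (fun p : E K × E K => P p.1 p.2) B :=
    (hP.comp continuousOn_fst (fun p hp => hp.1)).clm_apply continuous_snd.continuousOn
  have c2 : ContinuousOn (fun p : E K × E K => A p.1 p.2) B :=
    (hA.comp continuousOn_fst (fun p hp => hp.1)).clm_apply continuous_snd.continuousOn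
  set S : Set (E K × E K) := B ∩ (fun p : E K × E K => P p.1 p.2 - p.2) ⁻¹' {0} with hS
  have hSc : IsCompact S := by
    refine hBc.of_isClosed_subset ?_ inter_subset_left
    exact (c1.sub continuous_snd.continuousOn).preimage_isClosed_of_isClosed hBc.isClosed
      isClosed_singleton
  have hSB : S ⊆ B := inter_subset_left
  obtain ⟨θ, hθ0, hθ1, hth⟩ : ∃ θ : ℝ, 0 < θ ∧ θ < 1 ∧ ∀ p ∈ S, ‖A p.1 p.2‖ ≤ θ := by
    rcases S.eq_empty_or_nonempty with hE | hne
    · refine ⟨1 / 2, by norm_num, by norm_num, fun p hp => ?_⟩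
      rw [hE] at hp
      exact absurd hp (notMem_empty p)
    · obtain ⟨p1, hp1, hmax⟩ := hSc.exists_isMaxOn hne (c2.mono hSB).norm
      have h1 : ‖A p1.1 p1.2‖ < 1 := by
        have h2 : ‖p1.2‖ = 1 := mem_sphere_zero_iff_norm.1 hp1.1.2
        have h3 : p1.2 ≠ 0 := by
          intro h0
          rw [h0, norm_zero] at h2
          exact zero_ne_one h2
        have := hd p1.1 hp1.1.1 p1.2 (sub_eq_zero.1 hp1.2) h3
        rwa [h2] at this
      refine ⟨max ‖A p1.1 p1.2‖ (1 / 2), lt_max_of_lt_right (by norm_num),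
        max_lt h1 (by norm_num), fun p hp => ?_⟩
      exact (hmax hp : ‖A p.1 p.2‖ ≤ ‖A p1.1 p1.2‖).trans (le_max_left _ _)
  refine ⟨θ, hθ0, hθ1, ?_⟩
  intro x hx v hv
  rcases eq_or_ne v 0 with rfl | hv0
  · simp
  have nv : 0 < ‖v‖ := norm_pos_iff.2 hv0
  have h1 := hth (x, ‖v‖⁻¹ • v) (by
    refine ⟨⟨hx, ?_⟩, ?_⟩
    · rw [mem_sphere_zero_iff_norm]
      exact norm_smul_inv_norm hv0
    · show P x (‖v‖⁻¹ • v) - ‖v‖⁻¹ • v = 0
      rw [map_smul, hv, sub_self])
  simp only [map_smul, norm_smul, norm_inv, norm_norm] at h1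
  rw [inv_mul_le_iff₀ nv] at h1
  linarith

/-- packet HYP -/
theorem gHYP : StmtHYP := by
  intro K M f f' P hM hf hP
  obtain ⟨n, hn, hineq⟩ := hP.ineq
  have hf' : IsDiffeo 1 M f' f := ⟨hf.maps', hf.maps, hf.right, hf.left, hf.smooth', hf.smooth⟩
  have hPi : ContinuousOn (Pi M) M := by
    have h1 : ContinuousOn (fun x => P 0 x + P 1 x + P 2 x) M :=
      ((hP.proj 0).1.add (hP.proj 1).1).add (hP.proj 2).1
    exact h1.congr fun x hx => ((hP.sum x hx).1).symm
  have hMf : ∀ x ∈ M, f^[n] x ∈ M := fun x hx => hf.maps.iterate n hx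
  -- the iterate is a diffeomorphism
  have hleft : ∀ {g g' : E K → E K}, IsDiffeo 1 M g g' → ∀ m : ℕ, ∀ x ∈ M,
      g'^[m] (g^[m] x) = x := by
    intro g g' hg m
    induction m with
    | zero => intro x _; rfl
    | succ m ih =>
      intro x hx
      rw [Function.iterate_succ_apply' g m x, Function.iterate_succ_apply g' m (g (g^[m] x)),
        hg.left _ (hg.maps.iterate m hx), ih x hx]
  have hsm : ∀ {g g' : E K → E K}, IsDiffeo 1 M g g' → ContDiffOn ℝ 1 (g^[n]) M := by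
    intro g g' hg
    obtain ⟨x0, hx0⟩ | hE := M.eq_empty_or_nonempty.symm
    · exact (Pool.Agent.Helper77.CIR.der_iter hg n hx0).2.1
    · rw [hE]
      exact contDiffOn_empty
  have hfn : IsDiffeo 1 M (f^[n]) (f'^[n]) :=
    ⟨hf.maps.iterate n, hf.maps'.iterate n, hleft hf n, hleft hf' n, hsm hf, hsm hf'⟩
  have hA : ContinuousOn (der M (f^[n])) M :=
    Pool.Agent.Helper57.RZ.t3 Pool.Agent.Helper57.RZ.t2 K M (f^[n]) hPi hfn.smooth
  have hA' : ContinuousOn (der M (f'^[n])) M :=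
    Pool.Agent.Helper57.RZ.t3 Pool.Agent.Helper57.RZ.t2 K M (f'^[n]) hPi hfn.smooth'
  obtain ⟨θ0, h00, h01, hc⟩ := contr_unif hM hA' (hP.proj 2).1 (fun x hx => (hineq x hx).2.1)
  obtain ⟨θ2, hθ2, hd2⟩ := Pool.Agent.Helper77.CIR.dom_unif hM hA (hP.proj 1).1 (hP.proj 2).1
    (fun x hx => (hineq x hx).2.2.2)
  obtain ⟨θ3, hθ3, hd3⟩ := Pool.Agent.Helper77.CIR.dom_unif hM hA (hP.proj 0).1 (hP.proj 2).1
    (fun x hx => by
      intro v w hv hw nv nw
      -- a unit vector in the centre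
      have hne : P 1 x ≠ 0 := (hP.sum x hx).2 1
      obtain ⟨u, hu⟩ : ∃ u, P 1 x u ≠ 0 := by
        by_contra hcon
        push Not at hcon
        exact hne (ContinuousLinearMap.ext hcon)
      set c : E K := ‖P 1 x u‖⁻¹ • P 1 x u with hcdef
      have hc1 : P 1 x c = c := by
        rw [hcdef, map_smul]
        congr 1
        have := (hP.proj 1).2 x hx
        calc P 1 x (P 1 x u) = (P 1 x * P 1 x) u := rfl
          _ = P 1 x u := by rw [this]
      have hc2 : ‖c‖ = 1 := norm_smul_inv_norm hu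
      exact ((hineq x hx).2.2.1 v c hv hc1 nv hc2).trans ((hineq x hx).2.2.2 c w hc1 hw hc2 nw))
  have i2 : 1 / θ2 < 1 := by rw [div_lt_one (by linarith)]; exact hθ2
  have i3 : 1 / θ3 < 1 := by rw [div_lt_one (by linarith)]; exact hθ3
  refine ⟨n, hn, max θ0 (max (1 / θ2) (1 / θ3)), lt_max_of_lt_left h00,
    max_lt h01 (max_lt i2 i3), ?_⟩
  intro x hx w hw
  have key : ∀ θ' : ℝ, 1 < θ' → ∀ v : E K, θ' * (‖der M (f^[n]) x v‖ * ‖w‖) ≤
      ‖der M (f^[n]) x w‖ * ‖v‖ → 1 / θ' ≤ max θ0 (max (1 / θ2) (1 / θ3)) →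
      ‖der M (f^[n]) x v‖ * ‖w‖ ≤ max θ0 (max (1 / θ2) (1 / θ3)) *
        (‖v‖ * ‖der M (f^[n]) x w‖) := by
    intro θ' hθ' v h1 h2
    have h3 : ‖der M (f^[n]) x v‖ * ‖w‖ ≤ 1 / θ' * (‖v‖ * ‖der M (f^[n]) x w‖) := by
      rw [one_div, ← div_eq_inv_mul, le_div_iff₀ (by linarith)]
      linarith
    exact h3.trans (mul_le_mul_of_nonneg_right h2 (by positivity))
  refine ⟨?_, ?_⟩
  · have h1 : P 2 (f^[n] x) (der M (f^[n]) x w) = der M (f^[n]) x w := by
      have h2 := Pool.Agent.Helper77.CIR.inv_iter hf hP n hx 2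
      calc P 2 (f^[n] x) (der M (f^[n]) x w) = (P 2 (f^[n] x) * der M (f^[n]) x) w := rfl
        _ = der M (f^[n]) x (P 2 x w) := by rw [← h2]; rfl
        _ = _ := by rw [hw]
    have h2 := hc _ (hMf x hx) _ h1
    have h3 : der M (f'^[n]) (f^[n] x) (der M (f^[n]) x w) = w := by
      have h4 := Pool.Agent.Helper57.RZ.der_inv Pool.Agent.Helper57.RZ.t2 hfn hx
      calc der M (f'^[n]) (f^[n] x) (der M (f^[n]) x w)
          = (der M (f'^[n]) (f^[n] x) * der M (f^[n]) x) w := rfl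
        _ = Pi M x w := by rw [h4]
        _ = (Pi M x * P 2 x) w := by
            change _ = Pi M x (P 2 x w)
            rw [hw]
        _ = w := by rw [(Pool.Agent.Helper77.CIR.Pi_Q hP hx 2).1, hw]
    rw [h3] at h2
    exact h2.trans (mul_le_mul_of_nonneg_right (le_max_left _ _) (norm_nonneg _))
  · intro v i hi hv
    fin_cases i
    · exact key θ3 hθ3 v (hd3 x hx v w hv hw) ((le_max_right _ _).trans (le_max_right _ _))
    · exact key θ2 hθ2 v (hd2 x hx v w hv hw) ((le_max_left _ _).trans (le_max_right _ _))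
    · exact absurd rfl hi

end Pool.Agent.Helper30.TOF
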