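import Pool.Agent.Helper56.TOF.Goals

set_option autoImplicit false

open Set Filter Topology MeasureTheory

open scoped ContDiff

namespace Pool.Agent.Helper30.TOF

open Pool.Agent.Helper56.RZ Pool.Agent.Helper30.CIR Pool.Agent.Helper56.TOF

/-- nonempty relatively open sets have positive measure -/
theorem gPOS : StmtPOS := by
  intro N K M m U hM hU hne
  obtain ⟨x, hxM, hxU⟩ := hne
  obtain ⟨c, hxW, hc⟩ := hM.chart x hxM
  have hO : IsOpen (c.V ∩ c.ψ ⁻¹' U) := c.smoothψ.continuousOn.isOpen_inter_preimage c.openV hU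
  have hxV : c.φ x ∈ c.V ∩ c.ψ ⁻¹' U := by
    refine ⟨c.mapsφ x ⟨hxM, hxW⟩, ?_⟩
    show c.ψ (c.φ x) ∈ U
    rw [c.right x ⟨hxM, hxW⟩]
    exact hxU
  have h1 : m (c.ψ '' (c.V ∩ c.ψ ⁻¹' U)) = volume (c.V ∩ c.ψ ⁻¹' U) :=
    hc _ hO.measurableSet inter_subset_left
  have h2 : 0 < volume (c.V ∩ c.ψ ⁻¹' U) := hO.measure_pos volume ⟨_, hxV⟩
  rw [← h1] at h2
  refine lt_of_lt_of_le h2 (measure_mono ?_)
  rintro y ⟨z, ⟨hzV, hzU⟩, rfl⟩
  exact ⟨(c.mapsψ z hzV).1, hzU⟩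

end Pool.Agent.Helper30.TOF
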